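import Pool.Agent.Y164.SZ.Stm
import Pool.Agent.Y164.PS.Sym

/-!
# The algebraic properties of the `ℓ`-th power residue symbol over `F_q[t]`
-/

set_option autoImplicit false
set_option linter.all false

namespace Pool.Agent.Y37.SZ

open Polynomial Pool.Agent.Y164.SZ

section

variable {ℓ : ℕ} {k : Type} [Field k] [Fintype k]

theorem gen_spec (x : kˣ) : ∃ n : ℕ, gen k ^ n = x := by
  have h := (IsCyclic.exists_generator (α := kˣ)).choose_spec x
  change x ∈ Subgroup.zpowers (gen k) at h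
  rw [← mem_powers_iff_mem_zpowers] at h
  exact h

theorem order_gen : orderOf (gen k) = Fintype.card k - 1 := by
  classical
  have h := orderOf_eq_card_of_forall_mem_zpowers
    (IsCyclic.exists_generator (α := kˣ)).choose_spec
  change orderOf (gen k) = _ at h
  rw [h, Nat.card_units, Nat.card_eq_fintype_card]

theorem exists_pow {c : k} (hc : c ≠ 0) : ∃ n : ℕ, ((gen k : kˣ) : k) ^ n = c := by
  obtain ⟨n, hn⟩ := gen_spec (Units.mk0 c hc)
  refine ⟨n, ?_⟩
  have := congrArg (fun u : kˣ => (u : k)) hn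
  simpa using this

theorem gen_pow_eq (hℓ : ℓ ∣ Fintype.card k - 1) {n m : ℕ}
    (h : ((gen k : kˣ) : k) ^ n = ((gen k : kˣ) : k) ^ m) : (n : ZMod ℓ) = (m : ZMod ℓ) := by
  have h1 : gen k ^ n = gen k ^ m := by
    apply Units.ext
    simpa using h
  rw [pow_eq_pow_iff_modEq, order_gen] at h1
  exact (ZMod.natCast_eq_natCast_iff _ _ _).2 (h1.of_dvd hℓ)

theorem ch_eq (hℓ : ℓ ∣ Fintype.card k - 1) {c : k} {n : ℕ} (h : ((gen k : kˣ) : k) ^ n = c) :
    ch ℓ c = (n : ZMod ℓ) := by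
  have h1 : ∃ n : ℕ, ((gen k : kˣ) : k) ^ n = c := ⟨n, h⟩
  unfold ch
  rw [dif_pos h1]
  apply gen_pow_eq hℓ
  rw [h1.choose_spec, h]

theorem ch_zero : ch ℓ (0 : k) = 0 := by
  unfold ch
  rw [dif_neg]
  rintro ⟨n, hn⟩
  exact (gen k).ne_zero (pow_eq_zero_iff_of_pos_or hn)
where
  pow_eq_zero_iff_of_pos_or {x : k} {n : ℕ} (h : x ^ n = 0) : x = 0 := by
    by_contra hx
    exact pow_ne_zero n hx h

theorem ch_one (hℓ : ℓ ∣ Fintype.card k - 1) : ch ℓ (1 : k) = 0 := by
  have := ch_eq (ℓ := ℓ) hℓ (c := (1 : k)) (n := 0) (pow_zero _)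
  rw [this, Nat.cast_zero]

theorem ch_mul (hℓ : ℓ ∣ Fintype.card k - 1) {c c' : k} (hc : c ≠ 0) (hc' : c' ≠ 0) :
    ch ℓ (c * c') = ch ℓ c + ch ℓ c' := by
  obtain ⟨n, hn⟩ := exists_pow hc
  obtain ⟨m, hm⟩ := exists_pow hc'
  rw [ch_eq hℓ hn, ch_eq hℓ hm, ch_eq hℓ (n := n + m) (by rw [pow_add, hn, hm]), Nat.cast_add]

theorem ch_pow (hℓ : ℓ ∣ Fintype.card k - 1) {c : k} (hc : c ≠ 0) (n : ℕ) :
    ch ℓ (c ^ n) = (n : ZMod ℓ) * ch ℓ c := by
  induction n with
  | zero => rw [pow_zero, ch_one hℓ, Nat.cast_zero, zero_mul]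
  | succ n ih => rw [pow_succ, ch_mul hℓ (pow_ne_zero n hc) hc, ih]; push_cast; ring

theorem ch_zero_iff (hℓ : ℓ ∣ Fintype.card k - 1) {c : k} (hc : c ≠ 0) (hℓ0 : ℓ ≠ 0) :
    ch ℓ c = 0 ↔ ∃ z : k, c = z ^ ℓ := by
  constructor
  · intro h
    obtain ⟨n, hn⟩ := exists_pow hc
    rw [ch_eq hℓ hn, ZMod.natCast_eq_zero_iff] at h
    obtain ⟨m, rfl⟩ := h
    exact ⟨((gen k : kˣ) : k) ^ m, by rw [← hn, ← pow_mul, mul_comm]⟩
  · rintro ⟨z, rfl⟩
    have hz : z ≠ 0 := by
      rintro rfl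
      exact hc (zero_pow hℓ0)
    rw [ch_pow hℓ hz, ZMod.natCast_self, zero_mul]

theorem ch_neg_one (hℓ : ℓ ∣ Fintype.card k - 1) (hodd : Odd ℓ) : ch ℓ (-1 : k) = 0 :=
  (ch_zero_iff hℓ (neg_ne_zero.2 one_ne_zero) hodd.pos.ne').2 ⟨-1, by rw [hodd.neg_one_pow]⟩

theorem ch_sign (hℓ : ℓ ∣ Fintype.card k - 1) (hodd : Odd ℓ) (m : ℕ) (c : k) :
    ch ℓ ((-1) ^ m * c) = ch ℓ c := by
  rcases eq_or_ne c 0 with rfl | hc
  · rw [mul_zero]
  · rw [ch_mul hℓ (pow_ne_zero _ (neg_ne_zero.2 one_ne_zero)) hc, ch_pow hℓ (neg_ne_zero.2 one_ne_zero),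
      ch_neg_one hℓ hodd, mul_zero, zero_add]

theorem res_ne {f g : k[X]} (h : IsCoprime f g) :
    resultant g f g.natDegree f.natDegree ≠ 0 := by
  intro h0
  rw [resultant_eq_zero_iff] at h0
  exact h0.2 h.symm

theorem res_eq {f g : k[X]} (hg : g ≠ 0) (h : ¬ IsCoprime f g) :
    resultant g f g.natDegree f.natDegree = 0 := by
  rw [resultant_eq_zero_iff]
  exact ⟨Or.inl hg, fun h' => h h'.symm⟩

theorem L_nc {f g : k[X]} (hg : g ≠ 0) (h : ¬ IsCoprime f g) : L ℓ f g = 0 := by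
  unfold L
  rw [res_eq hg h, ch_zero]

theorem L_mul_left (hℓ : ℓ ∣ Fintype.card k - 1) {f f' g : k[X]} (hf : f ≠ 0) (hf' : f' ≠ 0)
    (h : IsCoprime f g) (h' : IsCoprime f' g) : L ℓ (f * f') g = L ℓ f g + L ℓ f' g := by
  unfold L
  rw [natDegree_mul hf hf', resultant_mul_right _ _ _ _ le_rfl, ch_mul hℓ (res_ne h) (res_ne h')]

theorem L_one_left (hℓ : ℓ ∣ Fintype.card k - 1) (g : k[X]) : L ℓ 1 g = 0 := by
  unfold L
  rw [natDegree_one, resultant_zero_right_deg]
  simp [ch_one hℓ]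

theorem L_C (hℓ : ℓ ∣ Fintype.card k - 1) {c : k} (hc : c ≠ 0) (g : k[X]) :
    L ℓ (C c) g = (g.natDegree : ZMod ℓ) * ch ℓ c := by
  unfold L
  rw [natDegree_C, resultant_zero_right_deg, coeff_C_zero, ch_pow hℓ hc]

theorem coprime_of_not_dvd {f P : k[X]} (hP : Irreducible P) (h : ¬ P ∣ f) : IsCoprime f P :=
  ((hP.coprime_iff_not_dvd).2 h).symm

theorem not_coprime_of_dvd {f P : k[X]} (hP : Irreducible P) (h : P ∣ f) : ¬ IsCoprime f P :=
  fun hc => hP.not_isUnit (hc.isUnit_of_dvd' h dvd_rfl)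

/-- the resultant is a norm -/
theorem res_norm {P : k[X]} (hP : P.Monic) (hi : Irreducible P) (f : k[X]) :
    resultant P f P.natDegree f.natDegree = Algebra.norm k (AdjoinRoot.mk P f) := by
  haveI : Fact (Irreducible P) := ⟨hi⟩
  haveI : Module.Finite k (AdjoinRoot P) := hP.finite_adjoinRoot
  haveI : Finite (AdjoinRoot P) := Module.finite_of_finite k
  have h1 := Pool.Agent.H341R2.Sharp.norm_aeval (F := k) (AdjoinRoot.root P) f
  have hmin : minpoly k (AdjoinRoot.root P) = P := by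
    rw [AdjoinRoot.minpoly_root hi.ne_zero, hP.leadingCoeff]
    simp
  have hfr : Module.finrank k (AdjoinRoot P) = P.natDegree := by
    rw [(AdjoinRoot.powerBasis hi.ne_zero).finrank]
    rfl
  rw [hmin, hfr, Nat.div_self hi.natDegree_pos, pow_one, AdjoinRoot.aeval_eq] at h1
  exact h1.symm

/-- an element is an `ℓ`-th power if its norm is one -/
theorem pow_of_norm (hℓ : ℓ ∣ Fintype.card k - 1) {E : Type} [Field E] [Algebra k E] [Finite E]
    {x : E} (hx : x ≠ 0) :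
    (∃ z : k, Algebra.norm k x = z ^ ℓ) ↔ ∃ y : E, x = y ^ ℓ := by
  classical
  letI : Fintype E := Fintype.ofFinite E
  constructor
  · rintro ⟨z, hz⟩
    obtain ⟨w, rfl⟩ := FiniteField.norm_surjective k E z
    obtain ⟨j, hj⟩ := exists_pow (k := E) hx
    have hw : w ≠ 0 ∨ ℓ = 0 := by
      by_contra hcon
      push Not at hcon
      rw [hcon.1, Algebra.norm_zero, zero_pow hcon.2] at hz
      exact hx ((Algebra.norm_eq_zero_iff).1 hz)
    rcases hw with hw | hw
    · obtain ⟨i, hi⟩ := exists_pow (k := E) hw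
      have h1 := congrArg (algebraMap k E) hz
      rw [map_pow, FiniteField.algebraMap_norm_eq_pow, FiniteField.algebraMap_norm_eq_pow] at h1
      set M := (Nat.card E - 1) / (Nat.card k - 1) with hM
      rw [← hj, ← hi, ← pow_mul, ← pow_mul, ← pow_mul] at h1
      have h2 : gen E ^ (j * M) = gen E ^ (i * M * ℓ) := by
        apply Units.ext
        rw [Units.val_pow_eq_pow_val, Units.val_pow_eq_pow_val, h1]
        ring
      rw [pow_eq_pow_iff_modEq, order_gen] at h2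
      have hq : Fintype.card k - 1 ∣ Fintype.card E - 1 := by
        have hcard : Fintype.card E = Fintype.card k ^ Module.finrank k E :=
          Module.card_eq_pow_finrank
        rw [hcard]
        simpa using Nat.sub_dvd_pow_sub_pow (Fintype.card k) 1 (Module.finrank k E)
      have hk1 : 0 < Fintype.card k - 1 := by
        have := Fintype.one_lt_card (α := k)
        omega
      have hE1 : 0 < Fintype.card E - 1 := by
        have := Fintype.one_lt_card (α := E)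
        omega
      have hM' : M = (Fintype.card E - 1) / (Fintype.card k - 1) := by
        rw [hM, Nat.card_eq_fintype_card, Nat.card_eq_fintype_card]
      have hMe : M * (Fintype.card k - 1) = Fintype.card E - 1 := by
        rw [hM']
        exact Nat.div_mul_cancel hq
      have hM0 : 0 < M := by
        rcases Nat.eq_zero_or_pos M with h | h
        · rw [h, zero_mul] at hMe
          omega
        · exact h
      have h3 : j ≡ i * ℓ [MOD Fintype.card k - 1] := by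
        have h4 : M * j ≡ M * (i * ℓ) [MOD M * (Fintype.card k - 1)] := by
          rw [hMe]
          have e1 : M * j = j * M := mul_comm _ _
          have e2 : M * (i * ℓ) = i * M * ℓ := by ring
          rw [e1, e2]
          exact h2
        exact Nat.ModEq.mul_left_cancel' hM0.ne' h4
      have h4 : j ≡ i * ℓ [MOD ℓ] := h3.of_dvd hℓ
      have h5 : ℓ ∣ j := by
        have h6 : i * ℓ ≡ 0 [MOD ℓ] := (Nat.modEq_zero_iff_dvd).2 (dvd_mul_left _ _)
        exact (Nat.modEq_zero_iff_dvd).1 (h4.trans h6)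
      obtain ⟨m, rfl⟩ := h5
      exact ⟨((gen E : Eˣ) : E) ^ m, by rw [← hj, ← pow_mul, mul_comm]⟩
    · exfalso
      rw [hw, zero_dvd_iff] at hℓ
      have := Fintype.one_lt_card (α := k)
      omega
  · rintro ⟨y, rfl⟩
    exact ⟨Algebra.norm k y, map_pow _ _ _⟩

theorem L_zero_iff (hℓ : ℓ ∣ Fintype.card k - 1) (hℓ0 : ℓ ≠ 0) {P f : k[X]} (hP : P.Monic)
    (hi : Irreducible P) (h : ¬ P ∣ f) : L ℓ f P = 0 ↔ ∃ z : k[X], P ∣ z ^ ℓ - f := by
  haveI : Fact (Irreducible P) := ⟨hi⟩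
  haveI : Module.Finite k (AdjoinRoot P) := hP.finite_adjoinRoot
  haveI : Finite (AdjoinRoot P) := Module.finite_of_finite k
  have hne := res_ne (coprime_of_not_dvd hi h)
  unfold L
  rw [ch_zero_iff hℓ hne hℓ0, res_norm hP hi, pow_of_norm hℓ]
  · constructor
    · rintro ⟨y, hy⟩
      obtain ⟨z, rfl⟩ := AdjoinRoot.mk_surjective y
      refine ⟨z, ?_⟩
      rw [← AdjoinRoot.mk_eq_mk, map_pow, hy]
    · rintro ⟨z, hz⟩
      refine ⟨AdjoinRoot.mk P z, ?_⟩
      rw [← AdjoinRoot.mk_eq_mk, map_pow] at hz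
      rw [hz]
  · rw [Ne, AdjoinRoot.mk_eq_zero]
    exact h

theorem L_congr {P f g : k[X]} (hP : P.Monic) (hi : Irreducible P) (h : P ∣ f - g) :
    L ℓ f P = L ℓ g P := by
  unfold L
  rw [res_norm hP hi, res_norm hP hi, (AdjoinRoot.mk_eq_mk).2 h]

theorem coprime_C {c : k} (hc : c ≠ 0) (g : k[X]) : IsCoprime (C c) g :=
  ⟨C c⁻¹, 0, by rw [← C_mul, inv_mul_cancel₀ hc, C_1, zero_mul, add_zero]⟩

theorem L_neg_left (hℓ : ℓ ∣ Fintype.card k - 1) (hodd : Odd ℓ) {f P : k[X]}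
    (hi : Irreducible P) : L ℓ (-f) P = L ℓ f P := by
  by_cases hf : P ∣ f
  · rw [L_nc hi.ne_zero (not_coprime_of_dvd hi ((dvd_neg).2 hf)),
      L_nc hi.ne_zero (not_coprime_of_dvd hi hf)]
  · have hf0 : f ≠ 0 := by rintro rfl; exact hf (dvd_zero _)
    have h1 : -f = C (-1) * f := by simp
    have h3 : L ℓ (C (-1 : k)) P = 0 := by
      rw [L_C hℓ (by simp), ch_neg_one hℓ hodd, mul_zero]
    rw [h1, L_mul_left hℓ (by simp) hf0 (coprime_C (by simp) _)
      (coprime_of_not_dvd hi hf), h3, zero_add]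

end

/-- **SZ-SYM** -/
theorem t : Pool.Agent.Y164.SZ.S_SYM := by
  intro ℓ hp k _ _ _ h2 hℓ
  have hodd : Odd ℓ := hp.out.odd_of_ne_two h2
  have hℓ0 : ℓ ≠ 0 := hp.out.ne_zero
  refine ⟨fun c c' hc hc' => ch_mul hℓ hc hc', fun c hc => ch_zero_iff hℓ hc hℓ0, ?_,
    fun f g hg h => L_nc hg h, fun f f' g _ hf hf' h h' => L_mul_left hℓ hf hf' h h', ?_,
    fun c g hc => L_C hℓ hc g, fun P f hP hi h => L_zero_iff hℓ hℓ0 hP hi h,
    fun P f g hP hi h => L_congr hP hi h, fun P f hP hi => L_neg_left hℓ hodd hi, ?_, ?_⟩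
  · intro f g
    unfold L
    rw [resultant_comm, ch_sign hℓ hodd]
  · intro α s f g hg hf h
    classical
    induction s using Finset.induction_on with
    | empty => rw [Finset.prod_empty, Finset.sum_empty, L_one_left hℓ]
    | insert a s ha ih =>
      rw [Finset.prod_insert ha, Finset.sum_insert ha, L_mul_left hℓ (hf a (by simp))
        (Finset.prod_ne_zero_iff.2 fun b hb => hf b (by simp [hb])) (h a (by simp))
        (IsCoprime.prod_left fun b hb => h b (by simp [hb])),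
        ih (fun b hb => hf b (by simp [hb])) fun b hb => h b (by simp [hb])]
  · intro f g hg h
    unfold lc
    rw [if_neg (res_ne h)]
  · intro f g hg h
    unfold lc
    rw [if_pos (res_eq hg h)]

end Pool.Agent.Y37.SZ
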